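import Pool.Agent.MWFE.StmtsB

set_option autoImplicit false

namespace Pool.Agent.MWFE.H97

open Pool.Agent.Helper14_MV Pool.Agent.Helper2_MV Pool.Agent.MVD
open Pool.Agent.MWE (Can XX fxy dxy dx dy up cp L4 pr Xs xl isx Fs nd nr)
open Pool.Agent.MWGR (cb)

theorem bw_cons (r : ℕ) (R : List ℕ) (B : ℕ → List ℕ) :
    Bw (r :: R) B = (B r ++ [3 * r + 2]) ++ Bw R B := by
  unfold Bw
  rw [List.flatMap_cons]

theorem bw_perm (R : List ℕ) {B B' : ℕ → List ℕ} (h : ∀ r, (B' r).Perm (B r)) :
    (Bw R B').Perm (Bw R B) := by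
  induction R with
  | nil => exact List.Perm.refl _
  | cons r R ih =>
    rw [bw_cons, bw_cons]
    exact ((h r).append_right _).append ih

theorem count_bw_congr (R : List ℕ) {B B' : ℕ → List ℕ} {a : ℕ}
    (h : ∀ r, (B' r).count a = (B r).count a) : (Bw R B').count a = (Bw R B).count a := by
  induction R with
  | nil => rfl
  | cons r R ih =>
    rw [bw_cons, bw_cons, List.count_append, List.count_append, List.count_append,
      List.count_append, h r, ih]

theorem count_le_bw {R : List ℕ} {B : ℕ → List ℕ} {r : ℕ} (a : ℕ) (h : r ∈ R) :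
    (B r).count a ≤ (Bw R B).count a := by
  induction R with
  | nil => exact absurd h List.not_mem_nil
  | cons s R ih =>
    rw [bw_cons, List.count_append, List.count_append]
    rcases List.mem_cons.1 h with h1 | h1
    · subst h1; omega
    · have := ih h1; omega

theorem bz_perm {m : ℕ} {R c : List ℕ} {B B' : ℕ → List ℕ} {e e' : List ℕ}
    (hB : ∀ r, (B' r).Perm (B r)) (he : e'.Perm e) (h : Bz m R c B e) : Bz m R c B' e' := by
  have hw : (Bw R B' ++ e').Perm (Bw R B ++ e) := (bw_perm R hB).append he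
  exact
  { sf := fun r a ha => h.sf r a ((hB r).mem_iff.1 ha)
    se := fun a ha => h.se a (he.mem_iff.1 ha)
    x0 := by rw [(hB 0).count_eq]; exact h.x0
    x1 := by rw [(hB 1).count_eq]; exact h.x1
    xo := fun r hr h0 h1 ha => h.xo r hr h0 h1 ((hB r).mem_iff.1 ha)
    xe := fun ha => h.xe (he.mem_iff.1 ha)
    y0 := by rw [(hB 0).count_eq]; exact h.y0
    y1 := by rw [(hB 1).count_eq]; exact h.y1
    yo := fun r hr h0 h1 ha => h.yo r hr h0 h1 ((hB r).mem_iff.1 ha)
    ye := fun ha => h.ye (he.mem_iff.1 ha)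
    li := fun d hd r hr => by rw [(hB r).count_eq]; exact h.li d hd r hr
    le := fun d hd ha => h.le d hd (he.mem_iff.1 ha)
    z1 := fun r hr hb ha => h.z1 r hr hb ((hB r).mem_iff.1 ha)
    ze := fun ha => h.ze (he.mem_iff.1 ha)
    ct := fun a ha => h.ct a (hw.mem_iff.1 ha)
    mu := fun a ha h2 => by rw [hw.count_eq]; exact h.mu a (hw.mem_iff.1 ha) h2
    hv := fun a ha h2 => by
      rw [hw.count_eq, he.count_eq]
      rcases h.hv a (hw.mem_iff.1 ha) h2 with h3 | h3 | ⟨r, hr, h3⟩
      · exact Or.inl h3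
      · exact Or.inr (Or.inl h3)
      · exact Or.inr (Or.inr ⟨r, hr, by rw [(hB r).count_eq]; exact h3⟩) }

theorem bfz_perm {m : ℕ} {R c : List ℕ} {B B' : ℕ → List ℕ} {e e' : List ℕ}
    (hB : ∀ r, (B' r).Perm (B r)) (he : e'.Perm e) (h : Bfz m R c B e) : Bfz m R c B' e' :=
  { bz_perm hB he h.toBz with
    fu := fun a ha => (hB 1).mem_iff.2 (h.fu a ha) }

theorem up_perm {B : ℕ → List ℕ} {r : ℕ} {D : List ℕ} (h : D.Perm (B r)) (q : ℕ) :
    (up B r D q).Perm (B q) := by
  unfold up
  by_cases hq : q = r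
  · rw [if_pos hq, hq]; exact h
  · rw [if_neg hq]

theorem count_dz {z a : ℕ} (ha : a ≠ z) (D : List ℕ) : (dz z D).count a = D.count a := by
  unfold dz
  rw [List.count_filter]
  simpa using ha

theorem upz : UpzStmt := by
  intro m R c B e hR
  refine ⟨fun r D hD => ⟨fun h => bz_perm (up_perm hD) (List.Perm.refl _) h,
    fun h => bfz_perm (up_perm hD) (List.Perm.refl _) h⟩,
    fun e' he => ⟨fun h => bz_perm (fun _ => List.Perm.refl _) he h,
      fun h => bfz_perm (fun _ => List.Perm.refl _) he h⟩, ?_⟩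
  intro D hD hdz hz2
  have hRn : R.Nodup := hR.nodup_iff.2 List.nodup_range
  have h0R : 0 ∈ R := hR.mem_iff.2 (List.mem_range.2 (by omega))
  have up0 : up B 0 D 0 = D := if_pos rfl
  have upn : ∀ r, r ≠ 0 → up B 0 D r = B r := fun r hr => if_neg hr
  have hcount : ∀ a, a ≠ 3 * m + 1 → ∀ r, (up B 0 D r).count a = (B r).count a := by
    intro a ha r
    by_cases hr : r = 0
    · subst hr
      rw [up0, ← count_dz ha D, hdz.count_eq, count_dz ha]
    · rw [upn r hr]
  have hmem : ∀ a, a ≠ 3 * m + 1 → ∀ r, a ∈ up B 0 D r → a ∈ B r := by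
    intro a ha r h
    rw [← List.count_pos_iff] at h ⊢
    rwa [hcount a ha r] at h
  have hwc : ∀ a, a ≠ 3 * m + 1 →
      (Bw R (up B 0 D) ++ e).count a = (Bw R B ++ e).count a := by
    intro a ha
    rw [List.count_append, List.count_append, count_bw_congr R (hcount a ha)]
  have hwm : ∀ a, a ≠ 3 * m + 1 → a ∈ Bw R (up B 0 D) ++ e → a ∈ Bw R B ++ e := by
    intro a ha h
    rw [← List.count_pos_iff] at h ⊢
    rwa [hwc a ha] at h
  have hb0 : ∀ r, Bfr R 0 r → r ≠ 0 := by
    rintro r ⟨A, B', C, hABC⟩ hr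
    subst hr
    rw [hABC] at hRn
    have h1 := (List.nodup_append.1 hRn).2.1
    rw [List.nodup_cons] at h1
    exact h1.1 (List.mem_append_right _ List.mem_cons_self)
  have main : Bz m R c B e → Bz m R c (up B 0 D) e := by
    intro h
    exact
    { sf := fun r => by
        by_cases hr : r = 0
        · subst hr; rw [up0]; exact hD
        · rw [upn r hr]; exact h.sf r
      se := h.se
      x0 := by rw [hcount 0 (by omega)]; exact h.x0
      x1 := by rw [hcount 0 (by omega)]; exact h.x1
      xo := fun r hr h0 h1 ha => h.xo r hr h0 h1 (hmem 0 (by omega) r ha)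
      xe := h.xe
      y0 := by rw [hcount 3 (by omega)]; exact h.y0
      y1 := by rw [hcount 3 (by omega)]; exact h.y1
      yo := fun r hr h0 h1 ha => h.yo r hr h0 h1 (hmem 3 (by omega) r ha)
      ye := h.ye
      li := fun d hd r hr => by rw [hcount _ (by omega)]; exact h.li d hd r hr
      le := h.le
      z1 := fun r hr hb => by rw [upn r (hb0 r hb)]; exact h.z1 r hr hb
      ze := h.ze
      ct := fun a ha h2 => by
        by_cases haz : a = 3 * m + 1
        · exact Or.inr (Or.inr (Or.inl haz))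
        · exact h.ct a (hwm a haz ha) h2
      mu := fun a ha h2 => by
        by_cases haz : a = 3 * m + 1
        · rw [haz, List.count_append]
          have := count_le_bw (R := R) (B := up B 0 D) (3 * m + 1) h0R
          rw [up0] at this
          omega
        · rw [hwc a haz]; exact h.mu a (hwm a haz ha) h2
      hv := fun a ha h2 => by
        by_cases haz : a = 3 * m + 1
        · exact Or.inr (Or.inr ⟨0, h0R, by rw [up0, haz]; exact hz2⟩)
        · rw [hwc a haz]
          rcases h.hv a (hwm a haz ha) h2 with h3 | h3 | ⟨r, hr, h3⟩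
          · exact Or.inl h3
          · exact Or.inr (Or.inl h3)
          · exact Or.inr (Or.inr ⟨r, hr, by rw [hcount a haz r]; exact h3⟩) }
  refine ⟨main, fun h => { main h.toBz with fu := fun a ha => ?_ }⟩
  rw [upn 1 one_ne_zero]
  exact h.fu a ha

end Pool.Agent.MWFE.H97
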